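import Mathlib
import Pool.Agent.H15.UR3
set_option autoImplicit false

namespace Pool.Agent.Results.MP_16b74e_gt.Equiv

open Pool.Agent.H15.UR

universe u

theorem result (X : Type u) [MetricSpace X] [IsUltrametricDist X] [Infinite X] :
    (∃ X0 : Set X, X0 ≠ Set.univ ∧ TotallyBounded X0 ∧
      (∃ (R : SimpleGraph X0) (l : X0 → ℝ), IsRay R ∧
        GenBy (fun a b : X0 => dist (a : X) b) R l) ∧ CompleteSpace X ∧ Dense X0) ↔
    (CompactSpace X ∧ ∃ (T : SimpleGraph X) (l : X → ℝ), Starlike T ∧ Rayless T ∧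
      GenBy dist T l) := by
  constructor
  · rintro ⟨X0, h1, h2, ⟨R, l, hR, hG⟩, h3, h4⟩
    exact forward X0 h1 h2 h4 R l hR hG
  · rintro ⟨hc, T, l, hS, -, hG⟩
    obtain ⟨X0, h1, h2, h3, h4⟩ := backward T l hS hG
    exact ⟨X0, h1, h2, h4, inferInstance, h3⟩

end Pool.Agent.Results.MP_16b74e_gt.Equiv
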